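import Pool.Agent.H.MP_978236_an.Defs

set_option autoImplicit false

open Set Filter Topology

namespace Pool.Agent.H.MP_978236_an

open Complex in
theorem const_of_exp (g : ℝ → ℂ) (hg : Continuous g) (h : ∀ a b, exp (g a) = exp (g b)) (a b : ℝ) :
    g a = g b :=
  Complex.isCoveringMap_exp.const_of_comp hg (fun a b => Subtype.ext (h a b)) a b

open Complex in
theorem winding (l : ℝ × ℝ → ℂ) (hl : Continuous l) (h0 : ∀ p, l p ≠ 0)
    (hper : ∀ a, l (a, 2 * Real.pi) = l (a, 0)) (b c : ℂ) (hb : ∀ φ, l (0, φ) = b)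
    (r : ℝ) (hc : ∀ φ : ℝ, l (r, φ) = exp (-(φ * I)) * c) : False := by
  obtain ⟨L, ⟨-, hL⟩, -⟩ := Complex.isCoveringMap_exp.existsUnique_continuousMap_lifts
    (⟨fun p => ⟨l p, h0 p⟩, hl.subtype_mk _⟩ : C(ℝ × ℝ, {z : ℂ // z ≠ 0})) (0, 0)
    (log (l (0, 0))) (Subtype.ext (exp_log (h0 _)))
  have hL' : ∀ p, exp (L p) = l p := fun p => congrArg Subtype.val (congrFun hL p)
  have hD : ∀ a b : ℝ, L (a, 2 * Real.pi) - L (a, 0) = L (b, 2 * Real.pi) - L (b, 0) := by
    refine const_of_exp (fun a => L (a, 2 * Real.pi) - L (a, 0)) (by fun_prop) fun a b => ?_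
    rw [exp_sub, exp_sub, hL', hL', hL', hL', hper, hper, div_self (h0 _), div_self (h0 _)]
  have h1 : L (0, 2 * Real.pi) = L (0, 0) := by
    refine const_of_exp (fun φ => L (0, φ)) (by fun_prop) (fun a b => ?_) _ _
    rw [hL', hL', hb, hb]
  have h2 : L (r, 2 * Real.pi) + ((2 * Real.pi : ℝ) : ℂ) * I = L (r, 0) + ((0 : ℝ) : ℂ) * I := by
    refine const_of_exp (fun φ => L (r, φ) + (φ : ℂ) * I) (by fun_prop) (fun a b => ?_) _ _
    rw [exp_add, exp_add, hL', hL', hc, hc, mul_right_comm, ← exp_add, mul_right_comm _ c,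
      ← exp_add]
    simp
  have h3 := hD 0 r
  rw [h1, sub_self] at h3
  have h4 : ((2 * Real.pi : ℝ) : ℂ) * I = 0 := by
    have : ((0 : ℝ) : ℂ) * I = 0 := by simp
    rw [this] at h2
    linear_combination h2 + h3
  have h5 : ((2 * Real.pi : ℝ) : ℂ) ≠ 0 := by
    exact_mod_cast (by positivity : (2 * Real.pi : ℝ) ≠ 0)
  exact (mul_ne_zero h5 I_ne_zero) h4

theorem isClosed_hol {n : ℕ} {U : Set (Fin n → ℂ)} (hU : IsOpen U) :
    IsClosed {f : C(U, ℂ) | IsHol U f} := by
  have : LocallyCompactSpace U := hU.locallyCompactSpace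
  rw [isClosed_iff_clusterPt]
  intro f hf a v
  set S : Set C(U, ℂ) := {f : C(U, ℂ) | IsHol U f}
  have : (𝓝 f ⊓ 𝓟 S).NeBot := hf
  have ht : Tendsto (fun g : C(U, ℂ) => g) (𝓝 f ⊓ 𝓟 S) (𝓝 f) := tendsto_id.mono_left inf_le_left
  rw [ContinuousMap.tendsto_iff_tendstoLocallyUniformly] at ht
  have hc : Continuous fun t : ℂ => a + t • v := by fun_prop
  have ho : IsOpen {t : ℂ | a + t • v ∈ U} := hU.preimage hc
  refine TendstoLocallyUniformlyOn.differentiableOn (φ := 𝓝 f ⊓ 𝓟 S)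
    (F := fun (g : C(U, ℂ)) (t : ℂ) => Function.extend Subtype.val g 0 (a + t • v)) ?_ ?_ ho
  · rw [tendstoLocallyUniformlyOn_iff_tendstoLocallyUniformly_comp_coe]
    have hc2 : Continuous fun t : {t : ℂ | a + t • v ∈ U} => (⟨a + t.1 • v, t.2⟩ : U) :=
      (hc.comp continuous_subtype_val).subtype_mk _
    have := ht.comp _ hc2
    convert this using 2 with g
    · ext t
      exact ext_val g ⟨a + t.1 • v, t.2⟩
    · ext t
      exact ext_val f ⟨a + t.1 • v, t.2⟩
  · refine mem_inf_of_right ?_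
    intro g hg
    exact hg a v

theorem unif_add (U : Type) [TopologicalSpace U] : IsUniformAddGroup C(U, ℂ) := by
  let F : C(U, ℂ) →+ (UniformOnFun U ℂ {K | IsCompact K}) :=
    { toFun := ContinuousMap.toUniformOnFunIsCompact
      map_zero' := rfl
      map_add' := fun _ _ => rfl }
  exact IsUniformInducing.isUniformAddGroup F
    ContinuousMap.isUniformEmbedding_toUniformOnFunIsCompact.isUniformInducing

theorem poly_of_closed (U : Type) [TopologicalSpace U] [LocallyCompactSpace U]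
    (X : Submodule ℂ (C(U, ℂ) × C(U, ℂ))) (hX : IsClosed (X : Set (C(U, ℂ) × C(U, ℂ)))) :
    IsPolynormed X := by
  have := unif_add U
  refine ⟨inferInstance, inferInstance, inferInstance, ?_, ?_⟩
  · intro V hV
    rw [nhds_induced, mem_comap] at hV
    obtain ⟨V', hV', hsub⟩ := hV
    obtain ⟨W, ⟨hW, hWc⟩, hWV⟩ :=
      (LocallyConvexSpace.convex_basis_zero ℝ (C(U, ℂ) × C(U, ℂ))).mem_iff.1 hV'
    refine ⟨Subtype.val ⁻¹' W, ?_, fun x hx => hsub (hWV hx), ?_⟩
    · exact continuous_subtype_val.continuousAt.preimage_mem_nhds hW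
    · intro x hx y hy a b ha hb hab
      have := hWc hx hy ha hb hab
      have e : ∀ (r : ℝ) (s : C(U, ℂ) × C(U, ℂ)), (r : ℂ) • s = r • s := by
        intro r s
        ext z <;> simp
      rw [← e a, ← e b] at this
      exact this
  · have : IsUniformAddGroup X := X.toAddSubgroup.isUniformAddGroup
    rw [IsUniformAddGroup.rightUniformSpace_eq]
    exact hX.completeSpace_coe

end Pool.Agent.H.MP_978236_an
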