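import Pool.Agent.H.MP_978236_an.A

set_option autoImplicit false

open Set Filter Topology

namespace Pool.Agent.H.MP_978236_an

universe v

def Q (z : Fin 3 → ℂ) : ℂ := z 0 ^ 2 + z 1 * z 2

def W0 : Set (Fin 3 → ℂ) := {z | 0 < (Q z).re}

def U0 : Set (Fin 3 → ℂ) := connectedComponentIn W0 ![1, 0, 0]

theorem Q_cont : Continuous Q := by unfold Q; fun_prop

theorem W0_open : IsOpen W0 := isOpen_lt continuous_const (Complex.continuous_re.comp Q_cont)

theorem U0_open : IsOpen U0 := W0_open.connectedComponentIn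

theorem p0_mem : (![1, 0, 0] : Fin 3 → ℂ) ∈ W0 := by
  simp [W0, Q]

theorem U0_conn : IsConnected U0 := isConnected_connectedComponentIn_iff.2 p0_mem

theorem U0_sub : U0 ⊆ W0 := connectedComponentIn_subset _ _

instance : LocallyCompactSpace U0 := U0_open.locallyCompactSpace

noncomputable def q (z : Fin 3 → ℂ) : ℂ := Q z ^ (2⁻¹ : ℂ)

theorem Q_slit {z : Fin 3 → ℂ} (hz : z ∈ U0) : Q z ∈ Complex.slitPlane := Or.inl (U0_sub hz)

theorem q_sq {z : Fin 3 → ℂ} : q z ^ 2 = z 0 ^ 2 + z 1 * z 2 := by
  have := Complex.cpow_nat_inv_pow (Q z) (n := 2) (by norm_num)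
  simp only [Nat.cast_ofNat] at this
  exact this

theorem q_ne {z : Fin 3 → ℂ} (hz : z ∈ U0) : q z ≠ 0 := by
  intro h
  have h1 : Q z = 0 := by
    have := @q_sq z
    rw [h] at this
    unfold Q
    rw [← this]; simp
  exact Complex.slitPlane_ne_zero (Q_slit hz) h1

theorem q_contOn : ContinuousOn q U0 :=
  Q_cont.continuousOn.cpow continuousOn_const fun _ hz => Q_slit hz

theorem q_cont : Continuous fun z : U0 => q z := continuousOn_iff_continuous_domRestrict.1 q_contOn

theorem q_diff (a v : Fin 3 → ℂ) :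
    DifferentiableOn ℂ (fun t : ℂ => q (a + t • v)) {t | a + t • v ∈ U0} := by
  refine DifferentiableOn.cpow ?_ (differentiableOn_const _) fun t ht => Q_slit ht
  unfold Q
  simp only [Pi.add_apply, Pi.smul_apply, smul_eq_mul]
  fun_prop

/-- the functions `(c + z i / q) / 2` -/
noncomputable def ent (c e : ℂ) (i : Fin 3) : C(U0, ℂ) :=
  ⟨fun z => (c + e * z.1 i / q z) / 2, by
    refine Continuous.div_const (continuous_const.add (Continuous.div ?_ q_cont
      fun z => q_ne z.2)) 2
    exact continuous_const.mul ((continuous_apply i).comp continuous_subtype_val)⟩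

theorem ent_hol (c e : ℂ) (i : Fin 3) : IsHol U0 (ent c e i) := by
  refine (isHol_iff U0 _ (fun z => (c + e * z i / q z) / 2) (fun _ => rfl)).2 fun a v => ?_
  refine DifferentiableOn.div_const ((differentiableOn_const _).add
    (DifferentiableOn.div ?_ (q_diff a v) fun t ht => q_ne ht)) 2
  simp only [Pi.add_apply, Pi.smul_apply, smul_eq_mul]
  fun_prop

def XX : Submodule ℂ (C(U0, ℂ) × C(U0, ℂ)) where
  carrier := {s | IsHol U0 s.1 ∧ IsHol U0 s.2 ∧ ∀ z : U0,
    z.1 0 * s.1 z + z.1 1 * s.2 z = q z * s.1 z ∧ z.1 2 * s.1 z - z.1 0 * s.2 z = q z * s.2 z}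
  add_mem' := by
    rintro s t ⟨h1, h2, h3⟩ ⟨k1, k2, k3⟩
    refine ⟨h1.add k1, h2.add k2, fun z => ?_⟩
    simp only [Prod.fst_add, Prod.snd_add, ContinuousMap.add_apply]
    constructor
    · linear_combination (h3 z).1 + (k3 z).1
    · linear_combination (h3 z).2 + (k3 z).2
  zero_mem' := ⟨IsHol.const U0 0, IsHol.const U0 0, fun z => by simp⟩
  smul_mem' := by
    rintro c s ⟨h1, h2, h3⟩
    refine ⟨(IsHol.const U0 c).mul h1, (IsHol.const U0 c).mul h2, fun z => ?_⟩
    simp only [Prod.smul_fst, Prod.smul_snd, ContinuousMap.smul_apply, smul_eq_mul]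
    constructor
    · linear_combination c * (h3 z).1
    · linear_combination c * (h3 z).2

theorem XX_closed : IsClosed (XX : Set (C(U0, ℂ) × C(U0, ℂ))) := by
  have h := isClosed_hol U0_open
  refine (h.preimage continuous_fst).inter ((h.preimage continuous_snd).inter ?_)
  change IsClosed {s : C(U0, ℂ) × C(U0, ℂ) | ∀ z : U0,
    z.1 0 * s.1 z + z.1 1 * s.2 z = q z * s.1 z ∧ z.1 2 * s.1 z - z.1 0 * s.2 z = q z * s.2 z}
  rw [Set.ofPred_forall]
  refine isClosed_iInter fun z => ?_
  refine IsClosed.inter (isClosed_eq ?_ ?_) (isClosed_eq ?_ ?_) <;> fun_prop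

noncomputable def mulX (f : O U0) (s : XX) : XX :=
  ⟨(f.1 * s.1.1, f.1 * s.1.2), IsHol.mul f.2 s.2.1, IsHol.mul f.2 s.2.2.1, fun z => by
    simp only [ContinuousMap.mul_apply]
    constructor
    · linear_combination f.1 z * (s.2.2.2 z).1
    · linear_combination f.1 z * (s.2.2.2 z).2⟩

theorem MX : IsPMod U0 XX mulX where
  poly := poly_of_closed U0 XX XX_closed
  act_add f s t := by
    apply Subtype.ext
    simp [mulX, mul_add]
  add_act f g h e s := by
    apply Subtype.ext
    simp only [O.ev] at e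
    ext z <;> simp [mulX, e, add_mul]
  mul_act f g h e s := by
    apply Subtype.ext
    simp only [O.ev] at e
    ext z <;> simp [mulX, e, mul_assoc]
  const_act f c e s := by
    apply Subtype.ext
    simp only [O.ev] at e
    ext z <;> simp [mulX, e]
  cont := by
    refine Continuous.subtype_mk (f := fun p : O U0 × XX => (p.1.1 * p.2.1.1, p.1.1 * p.2.1.2)) ?_ _
    have h : Continuous fun p : O U0 × XX => p.1.1 := continuous_subtype_val.comp continuous_fst
    exact (h.mul (by fun_prop)).prodMk (h.mul (by fun_prop))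

noncomputable def e1 : XX :=
  ⟨(ent 1 1 0, ent 0 1 2), ent_hol _ _ _, ent_hol _ _ _, fun z => by
    have h := q_ne z.2
    have h2 := @q_sq z.1
    simp only [ent, ContinuousMap.coe_mk]
    constructor
    · field_simp
      linear_combination -h2
    · field_simp
      ring⟩

noncomputable def e2 : XX :=
  ⟨(ent 0 1 1, ent 1 (-1) 0), ent_hol _ _ _, ent_hol _ _ _, fun z => by
    have h := q_ne z.2
    have h2 := @q_sq z.1
    simp only [ent, ContinuousMap.coe_mk]
    constructor
    · field_simp
      ring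
    · field_simp
      linear_combination -h2⟩

def c1 (s : XX) : O U0 := ⟨s.1.1, s.2.1⟩
def c2 (s : XX) : O U0 := ⟨s.1.2, s.2.2.1⟩

theorem decomp (s : XX) : mulX (c1 s) e1 + mulX (c2 s) e2 = s := by
  apply Subtype.ext
  ext z
  · have h := q_ne z.2
    have h3 := (s.2.2.2 z).1
    simp only [mulX, c1, c2, e1, e2, ent, Submodule.coe_add, Prod.fst_add, ContinuousMap.add_apply,
      ContinuousMap.mul_apply, ContinuousMap.coe_mk]
    field_simp
    linear_combination h3
  · have h := q_ne z.2
    have h3 := (s.2.2.2 z).2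
    simp only [mulX, c1, c2, e1, e2, ent, Submodule.coe_add, Prod.snd_add, ContinuousMap.add_apply,
      ContinuousMap.mul_apply, ContinuousMap.coe_mk]
    field_simp
    linear_combination h3

noncomputable def cst (c : ℂ) : O U0 := ⟨ContinuousMap.const _ c, IsHol.const U0 c⟩

theorem MX_proj : Projective.{0, v} U0 XX mulX := by
  rintro Y _ _ _ act hY φ hφ ⟨ρ, hρ⟩
  have := hY.poly.add
  have := hY.poly.smul
  let y1 : Y := ρ e1
  let y2 : Y := ρ e2
  let σ : XX →L[ℂ] Y :=
    { toFun := fun s => act (c1 s) y1 + act (c2 s) y2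
      map_add' := fun s t => by
        rw [hY.add_act (c1 s) (c1 t) (c1 (s + t)) (fun _ => rfl),
          hY.add_act (c2 s) (c2 t) (c2 (s + t)) (fun _ => rfl)]
        abel
      map_smul' := fun c s => by
        rw [hY.mul_act (cst c) (c1 s) (c1 (c • s)) (fun _ => rfl),
          hY.mul_act (cst c) (c2 s) (c2 (c • s)) (fun _ => rfl),
          hY.const_act (cst c) c (fun _ => rfl), hY.const_act (cst c) c (fun _ => rfl), smul_add]
        rfl
      cont := by
        have k1 : Continuous c1 := Continuous.subtype_mk (by fun_prop) _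
        have k2 : Continuous c2 := Continuous.subtype_mk (by fun_prop) _
        exact (hY.cont.comp (k1.prodMk continuous_const)).add
          (hY.cont.comp (k2.prodMk continuous_const)) }
  refine ⟨σ, fun f s => ?_, fun s => ?_⟩
  · change act (c1 (mulX f s)) y1 + act (c2 (mulX f s)) y2 =
      act f (act (c1 s) y1 + act (c2 s) y2)
    rw [hY.mul_act f (c1 s) (c1 (mulX f s)) (fun _ => rfl),
      hY.mul_act f (c2 s) (c2 (mulX f s)) (fun _ => rfl), hY.act_add]
  · change φ (act (c1 s) y1 + act (c2 s) y2) = s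
    rw [map_add, hφ, hφ, hρ, hρ]
    exact decomp s

end Pool.Agent.H.MP_978236_an
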