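import Pool.Agent.H.MP_978236_an.B

set_option autoImplicit false

open Set Filter Topology

namespace Pool.Agent.H.MP_978236_an

universe v

open Complex in
noncomputable def gam (p : ℝ × ℝ) : Fin 3 → ℂ :=
  ![cos p.1 ^ 2 - sin p.1 ^ 2, 2 * exp (-(p.2 * I)) * sin p.1 * cos p.1,
    2 * exp (p.2 * I) * sin p.1 * cos p.1]

theorem gam_cont : Continuous gam := by
  refine continuous_pi fun i => ?_
  fin_cases i <;> simp [gam] <;> fun_prop

open Complex in
theorem exp_mul_neg (φ : ℝ) : exp (-(φ * I)) * exp (φ * I) = 1 := by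
  rw [← exp_add]; simp

theorem Q_gam (p : ℝ × ℝ) : Q (gam p) = 1 := by
  have h1 := exp_mul_neg p.2
  have h2 := Complex.sin_sq_add_cos_sq (p.1 : ℂ)
  simp only [Q, gam, Matrix.cons_val_zero, Matrix.cons_val_one, Matrix.cons_val]
  linear_combination (4 * Complex.sin p.1 ^ 2 * Complex.cos p.1 ^ 2) * h1 +
    (Complex.sin p.1 ^ 2 + Complex.cos p.1 ^ 2 + 1) * h2

theorem gam_zero (φ : ℝ) : gam (0, φ) = ![1, 0, 0] := by
  simp [gam]

theorem gam_half (φ : ℝ) : gam (Real.pi / 2, φ) = ![-1, 0, 0] := by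
  simp [gam]

theorem gam_per (a : ℝ) : gam (a, 2 * Real.pi) = gam (a, 0) := by
  have h := Complex.exp_two_pi_mul_I
  simp [gam, h, Complex.exp_neg]

theorem gam_mem (p : ℝ × ℝ) : gam p ∈ U0 := by
  have h : range gam ⊆ U0 := by
    refine (isPreconnected_range gam_cont).subset_connectedComponentIn ⟨(0, 0), gam_zero 0⟩ ?_
    rintro _ ⟨p, rfl⟩
    simp [W0, Q_gam]
  exact h ⟨p, rfl⟩

theorem q_gam (p : ℝ × ℝ) : q (gam p) = 1 := by
  simp [q, Q_gam]

open Complex in
theorem has_zero (s : XX) : ∃ z : U0, s.1.1 z = 0 ∧ s.1.2 z = 0 := by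
  by_contra hne
  let g : ℝ × ℝ → U0 := fun p => ⟨gam p, gam_mem p⟩
  have hg : Continuous g := gam_cont.subtype_mk _
  let l : ℝ × ℝ → ℂ := fun p => cos p.1 * s.1.1 (g p) + exp (-(p.2 * I)) * sin p.1 * s.1.2 (g p)
  refine winding l (by fun_prop) ?_ ?_ (s.1.1 (g (0, 0))) (s.1.2 (g (Real.pi / 2, 0))) ?_
    (Real.pi / 2) ?_
  · intro p hp
    apply hne
    refine ⟨g p, ?_⟩
    obtain ⟨h1, h2⟩ := s.2.2.2 (g p)
    have h3 := exp_mul_neg p.2
    have h4 := Complex.sin_sq_add_cos_sq (p.1 : ℂ)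
    simp only [g, q_gam] at h1 h2
    simp only [gam, Matrix.cons_val_zero, Matrix.cons_val_one, Matrix.cons_val] at h1 h2
    simp only [l] at hp
    change _ * s.1.1 (g p) + _ * s.1.2 (g p) = _ * s.1.1 (g p) at h1
    change _ * s.1.1 (g p) - _ * s.1.2 (g p) = _ * s.1.2 (g p) at h2
    set x := s.1.1 (g p)
    set y := s.1.2 (g p)
    set c := cos (p.1 : ℂ)
    set t := sin (p.1 : ℂ)
    set E := exp (p.2 * I)
    set F := exp (-(p.2 * I))
    have m1 : t * (t * x - F * c * y) = 0 := by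
      linear_combination (-1 / 2) * h1 + (x / 2) * h4
    have m2 : c * (t * x - F * c * y) = 0 := by
      linear_combination (F / 2) * h2 - (t * c * x) * h3 - (F * y / 2) * h4
    have m : t * x - F * c * y = 0 := by
      linear_combination t * m1 + c * m2 - (t * x - F * c * y) * h4
    constructor
    · linear_combination c * hp + t * m - x * h4
    · have : F * y = 0 := by linear_combination t * hp - c * m - (F * y) * h4
      linear_combination E * this - y * h3
  · intro a
    have : g (a, 2 * Real.pi) = g (a, 0) := Subtype.ext (gam_per a)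
    have h := Complex.exp_two_pi_mul_I
    simp [l, this, h, Complex.exp_neg]
  · intro φ
    have : g (0, φ) = g (0, 0) := Subtype.ext ((gam_zero φ).trans (gam_zero 0).symm)
    simp [l, this]
  · intro φ
    have : g (Real.pi / 2, φ) = g (Real.pi / 2, 0) :=
      Subtype.ext ((gam_half φ).trans (gam_half 0).symm)
    simp [l, this]

theorem det_zero (s t : XX) (z : U0) : s.1.1 z * t.1.2 z = s.1.2 z * t.1.1 z := by
  obtain ⟨h1, h2⟩ := s.2.2.2 z
  obtain ⟨k1, k2⟩ := t.2.2.2 z
  have h := q_ne z.2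
  have : 2 * q z * (s.1.1 z * t.1.2 z - s.1.2 z * t.1.1 z) = 0 := by
    linear_combination -(t.1.2 z) * h1 + (s.1.2 z) * k1 - (s.1.1 z) * k2 + (t.1.1 z) * h2
  rcases mul_eq_zero.1 this with h' | h'
  · exact absurd h' (mul_ne_zero two_ne_zero h)
  · exact sub_eq_zero.1 h'

theorem e_ne (z : U0) : ¬(e1.1.1 z = 0 ∧ e2.1.2 z = 0) := by
  rintro ⟨h1, h2⟩
  simp only [e1, e2, ent, ContinuousMap.coe_mk] at h1 h2
  have : (1 : ℂ) = 0 := by linear_combination h1 + h2
  exact one_ne_zero this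

theorem MX_not_free : ¬Free.{0, v} U0 XX mulX := by
  rintro ⟨E, _, _, _, hE, Ψ, hadd, hΨ⟩
  have := hE.t2
  have := hE.add
  have := hE.smul
  simp only [OE.ev, O.ev] at hadd hΨ
  let k : E → OE U0 E := fun e => ⟨ContinuousMap.const U0 e, fun l => IsHol.const U0 (l e)⟩
  let z0 : U0 := ⟨gam (0, 0), gam_mem _⟩
  by_cases h0 : ∀ e : E, e = 0
  · have : ∀ s : XX, s = 0 := fun s => by
      apply Ψ.injective
      apply Subtype.ext
      ext z
      rw [h0 ((Ψ s).1 z), h0 ((Ψ (0 : XX)).1 z)]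
    apply e_ne z0
    rw [this e1, this e2]
    exact ⟨rfl, rfl⟩
  push Not at h0
  obtain ⟨e, he⟩ := h0
  let s : XX := Ψ.symm (k e)
  have hs : Ψ s = k e := Ψ.apply_symm_apply _
  have hdep : ∀ e' : E, ∃ c : ℂ, c • e = e' := by
    intro e'
    let t : XX := Ψ.symm (k e')
    have ht : Ψ t = k e' := Ψ.apply_symm_apply _
    have a1 : mulX (c1 t) s = mulX (c1 s) t := by
      apply Subtype.ext
      ext z
      · exact mul_comm (t.1.1 z) (s.1.1 z)
      · simp only [mulX, c1, ContinuousMap.mul_apply]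
        rw [det_zero s t z, mul_comm]
    have a2 : mulX (c2 t) s = mulX (c2 s) t := by
      apply Subtype.ext
      ext z
      · simp only [mulX, c2, ContinuousMap.mul_apply]
        rw [← det_zero s t z, mul_comm]
      · exact mul_comm (t.1.2 z) (s.1.2 z)
    have b : ∀ f g : O U0, mulX f s = mulX g t → ∀ z : U0, f.1 z • e = g.1 z • e' := by
      intro f g h z
      have h1 := hΨ f s z
      have h2 := hΨ g t z
      rw [hs] at h1
      rw [ht] at h2
      rw [h, h2] at h1
      exact h1.symm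
    have hs0 : ∃ z : U0, s.1.1 z ≠ 0 ∨ s.1.2 z ≠ 0 := by
      by_contra hc
      push Not at hc
      have : s = 0 := by
        apply Subtype.ext
        ext z
        · exact (hc z).1
        · exact (hc z).2
      have h5 := hadd s s z0
      rw [show s + s = s by rw [this, add_zero], hs] at h5
      exact he (left_eq_add.1 h5)
    obtain ⟨z, hz | hz⟩ := hs0
    · refine ⟨(s.1.1 z)⁻¹ * t.1.1 z, ?_⟩
      have := b _ _ a1 z
      simp only [c1] at this
      rw [mul_smul, this, inv_smul_smul₀ hz]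
    · refine ⟨(s.1.2 z)⁻¹ * t.1.2 z, ?_⟩
      have := b _ _ a2 z
      simp only [c2] at this
      rw [mul_smul, this, inv_smul_smul₀ hz]
  have hfin : Module.finrank ℂ E = 1 := (finrank_eq_one_iff_of_nonzero' e he).2 hdep
  have : FiniteDimensional ℂ E := Module.finite_of_finrank_eq_succ hfin
  obtain ⟨l0, hl0⟩ := Module.Projective.exists_dual_eq_one ℂ he
  let l : E →L[ℂ] ℂ := LinearMap.toContinuousLinearMap l0
  have hl : ∀ x : E, l x • e = x := by
    intro x
    obtain ⟨c, rfl⟩ := hdep x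
    have : l e = 1 := hl0
    rw [map_smul, this, smul_eq_mul, mul_one]
  have gen : ∀ t : XX, ∃ f : O U0, mulX f s = t := by
    intro t
    refine ⟨⟨⟨fun z => l ((Ψ t).1 z), l.continuous.comp (Ψ t).1.continuous⟩, (Ψ t).2 l⟩, ?_⟩
    apply Ψ.injective
    apply Subtype.ext
    ext z
    refine (hΨ _ s z).trans ?_
    rw [hs]
    exact hl _
  obtain ⟨z, h1, h2⟩ := has_zero s
  obtain ⟨f, hf⟩ := gen e1
  obtain ⟨g, hg⟩ := gen e2
  apply e_ne z
  rw [← hf, ← hg]
  simp [mulX, h1, h2]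

end Pool.Agent.H.MP_978236_an
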