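import Mathlib

set_option autoImplicit false

open Set Filter Topology

namespace Pool.Agent.H.MP_978236_an

universe u v

/-- holomorphic on every complex line (used for continuous `f` on an open `U`) -/
def IsHol {n : ℕ} (U : Set (Fin n → ℂ)) (f : U → ℂ) : Prop :=
  ∀ a v : Fin n → ℂ, DifferentiableOn ℂ
    (fun t : ℂ => Function.extend Subtype.val f 0 (a + t • v)) {t | a + t • v ∈ U}

theorem isHol_iff {n : ℕ} (U : Set (Fin n → ℂ)) (f : U → ℂ) (F : (Fin n → ℂ) → ℂ)
    (h : ∀ z : U, F z = f z) : IsHol U f ↔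
      ∀ a v : Fin n → ℂ, DifferentiableOn ℂ (fun t : ℂ => F (a + t • v)) {t | a + t • v ∈ U} := by
  refine forall₂_congr fun a v => differentiableOn_congr fun t ht => ?_
  have := Subtype.val_injective.extend_apply f 0 (⟨a + t • v, ht⟩ : U)
  rw [← h] at this
  exact this

theorem ext_val {n : ℕ} {U : Set (Fin n → ℂ)} (f : U → ℂ) (z : U) :
    Function.extend Subtype.val f 0 z.1 = f z :=
  Subtype.val_injective.extend_apply f 0 z

theorem IsHol.add {n : ℕ} {U : Set (Fin n → ℂ)} {f g : U → ℂ} (hf : IsHol U f) (hg : IsHol U g) :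
    IsHol U (fun z => f z + g z) :=
  (isHol_iff U _ (fun z => Function.extend Subtype.val f 0 z + Function.extend Subtype.val g 0 z)
    (fun z => by rw [ext_val, ext_val])).2 fun a v => (hf a v).add (hg a v)

theorem IsHol.mul {n : ℕ} {U : Set (Fin n → ℂ)} {f g : U → ℂ} (hf : IsHol U f) (hg : IsHol U g) :
    IsHol U (fun z => f z * g z) :=
  (isHol_iff U _ (fun z => Function.extend Subtype.val f 0 z * Function.extend Subtype.val g 0 z)
    (fun z => by rw [ext_val, ext_val])).2 fun a v => (hf a v).mul (hg a v)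

theorem IsHol.const {n : ℕ} (U : Set (Fin n → ℂ)) (c : ℂ) : IsHol U (fun _ => c) :=
  (isHol_iff U _ (fun _ => c) (fun _ => rfl)).2 fun _ _ => differentiableOn_const c

/-- the space `O(U, E)` of holomorphic maps -/
def OE {n : ℕ} (U : Set (Fin n → ℂ)) (E : Type v) [AddCommGroup E] [Module ℂ E]
    [TopologicalSpace E] : Type v :=
  {f : C(U, E) // ∀ l : E →L[ℂ] ℂ, IsHol U (fun z => l (f z))}

/-- the compact-open topology -/
noncomputable instance topOE {n : ℕ} (U : Set (Fin n → ℂ)) (E : Type v) [AddCommGroup E] [Module ℂ E]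
    [TopologicalSpace E] : TopologicalSpace (OE U E) :=
  instTopologicalSpaceSubtype

/-- value at a point -/
noncomputable def OE.ev {n : ℕ} {U : Set (Fin n → ℂ)} {E : Type v} [AddCommGroup E] [Module ℂ E]
    [TopologicalSpace E] (f : OE U E) (z : U) : E :=
  f.1 z

/-- the algebra `O(U)` -/
def O {n : ℕ} (U : Set (Fin n → ℂ)) : Type := {f : C(U, ℂ) // IsHol U f}

/-- the compact-open topology -/
noncomputable instance topO {n : ℕ} (U : Set (Fin n → ℂ)) : TopologicalSpace (O U) :=
  instTopologicalSpaceSubtype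

/-- value at a point -/
noncomputable def O.ev {n : ℕ} {U : Set (Fin n → ℂ)} (f : O U) (z : U) : ℂ := f.1 z

/-- polynormed space: a Hausdorff, locally convex, complete complex topological vector space -/
structure IsPolynormed (E : Type v) [AddCommGroup E] [Module ℂ E] [TopologicalSpace E] : Prop where
  add : IsTopologicalAddGroup E
  smul : ContinuousSMul ℂ E
  t2 : T2Space E
  convex : ∀ V ∈ 𝓝 (0 : E), ∃ W ∈ 𝓝 (0 : E), W ⊆ V ∧ ∀ x ∈ W, ∀ y ∈ W, ∀ a b : ℝ,
    0 ≤ a → 0 ≤ b → a + b = 1 → (a : ℂ) • x + (b : ℂ) • y ∈ W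
  complete : @CompleteSpace E (@IsTopologicalAddGroup.rightUniformSpace E _ _ add)

/-- `act` makes `X` a polynormed `O(U)`-module -/
structure IsPMod {n : ℕ} (U : Set (Fin n → ℂ)) (X : Type u) [AddCommGroup X] [Module ℂ X]
    [TopologicalSpace X] (act : O U → X → X) : Prop where
  poly : IsPolynormed X
  act_add : ∀ f x y, act f (x + y) = act f x + act f y
  add_act : ∀ f g h : O U, (∀ z, h.ev z = f.ev z + g.ev z) → ∀ x, act h x = act f x + act g x
  mul_act : ∀ f g h : O U, (∀ z, h.ev z = f.ev z * g.ev z) → ∀ x, act h x = act f (act g x)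
  const_act : ∀ (f : O U) (c : ℂ), (∀ z, f.ev z = c) → ∀ x, act f x = c • x
  cont : Continuous fun p : O U × X => act p.1 p.2

/-- projectivity, tested against polynormed modules in universe `v` -/
def Projective {n : ℕ} (U : Set (Fin n → ℂ)) (X : Type u) [AddCommGroup X] [Module ℂ X]
    [TopologicalSpace X] (act : O U → X → X) : Prop :=
  ∀ (Y : Type v) [AddCommGroup Y] [Module ℂ Y] [TopologicalSpace Y] (actY : O U → Y → Y),
    IsPMod U Y actY → ∀ φ : Y →L[ℂ] X, (∀ f y, φ (actY f y) = act f (φ y)) →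
      (∃ ρ : X →L[ℂ] Y, ∀ x, φ (ρ x) = x) →
        ∃ σ : X →L[ℂ] Y, (∀ f x, σ (act f x) = actY f (σ x)) ∧ ∀ x, φ (σ x) = x

/-- freeness: topologically isomorphic, as a module, to `O(U, E)` for a polynormed `E` -/
def Free {n : ℕ} (U : Set (Fin n → ℂ)) (X : Type u) [AddCommGroup X] [Module ℂ X]
    [TopologicalSpace X] (act : O U → X → X) : Prop :=
  ∃ (E : Type v) (_ : AddCommGroup E) (_ : Module ℂ E) (_ : TopologicalSpace E),
    IsPolynormed E ∧ ∃ Ψ : X ≃ₜ OE U E,
      (∀ x y z, (Ψ (x + y)).ev z = (Ψ x).ev z + (Ψ y).ev z) ∧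
        ∀ f x z, (Ψ (act f x)).ev z = f.ev z • (Ψ x).ev z

end Pool.Agent.H.MP_978236_an
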